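import Pool.Agent.H71.UF.Params

/-!
MP_54bae5_nt, Q1: in every finite partition of the positive integers some single class
represents every positive rational as a finite sum of distinct unit fractions. The same holds
for the partitions of the integers all of whose prime factors lie in a given set of primes of
positive lower relative density.
-/

namespace Pool.Agent.Results.MP_54bae5_nt.OneClass

open Finset

/-- `n` is a positive integer all of whose prime factors lie in `P`. -/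
def Over (P : Set ℕ) (n : ℕ) : Prop := 0 < n ∧ ∀ p : ℕ, p.Prime → p ∣ n → p ∈ P

theorem Over.mul {P : Set ℕ} {a b : ℕ} (ha : Over P a) (hb : Over P b) : Over P (a * b) :=
  ⟨Nat.mul_pos ha.1 hb.1, fun p hp hd => by
    rcases hp.dvd_mul.1 hd with h | h
    · exact ha.2 p hp h
    · exact hb.2 p hp h⟩

/-- `q` is a sum of reciprocals of distinct elements of `D` over `P`, beyond any bound -/
def Good (P D : Set ℕ) (q : ℚ) : Prop :=
  ∀ N : ℕ, ∃ F : Finset ℕ, (∀ n ∈ F, N < n ∧ Over P n ∧ n ∈ D) ∧ ∑ n ∈ F, (1 / (n : ℚ)) = q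

theorem Good.mul {P D : Set ℕ} {q : ℚ} (h : Good P D q) : ∀ m : ℕ, Good P D (m * q) := by
  classical
  intro m
  induction m with
  | zero => intro N; exact ⟨∅, by simp, by simp⟩
  | succ m ih =>
    intro N
    obtain ⟨F, hF, hs⟩ := ih N
    obtain ⟨F', hF', hs'⟩ := h (N + F.sup id)
    refine ⟨F ∪ F', ?_, ?_⟩
    · intro n hn
      rcases mem_union.1 hn with h1 | h1
      · exact hF n h1
      · exact ⟨by have := (hF' n h1).1; omega, (hF' n h1).2⟩
    · rw [sum_union, hs, hs']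
      · push_cast; ring
      · rw [disjoint_left]
        intro n h1 h2
        have h3 : n ≤ F.sup id := le_sup (f := id) h1
        have h4 := (hF' n h2).1
        omega

theorem ncard_eq (P : Set ℕ) (x : ℕ) :
    {p : ℕ | p.Prime ∧ p ≤ x ∧ p ∈ P}.ncard = Pool.Agent.H71.UF.cntP P x := by
  classical
  have e : {p : ℕ | p.Prime ∧ p ≤ x ∧ p ∈ P} =
      (((Icc 1 x).filter (fun p => p.Prime ∧ p ∈ P) : Finset ℕ) : Set ℕ) := by
    ext p
    simp only [Set.mem_ofPred_eq, coe_filter, mem_Icc]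
    constructor
    · rintro ⟨h1, h2, h3⟩; exact ⟨⟨h1.pos, h2⟩, h1, h3⟩
    · rintro ⟨⟨_, h2⟩, h1, h3⟩; exact ⟨h1, h2, h3⟩
  rw [e, Set.ncard_coe_finset]
  unfold Pool.Agent.H71.UF.cntP
  congr

/-- every `1 / t` is represented beyond any bound in some class -/
theorem exists_good (P : Set ℕ) (δ : ℝ) (hδ : 0 < δ)
    (hP : ∀ᶠ x : ℕ in Filter.atTop, δ * (Pool.Agent.H71.UF.cntP Set.univ x : ℝ) ≤
      Pool.Agent.H71.UF.cntP P x)
    (k : ℕ) (C : Fin k → Set ℕ) (hC : ∀ n : ℕ, Over P n → ∃ i, n ∈ C i)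
    (t : ℕ) (ht : Over P t) : ∃ i, Good P (C i) (1 / t) := by
  classical
  have hk : 0 < k := Fin.pos (hC 1 ⟨one_pos, fun p hp hd => by
    rw [Nat.dvd_one] at hd; exact absurd hd hp.ne_one⟩).choose
  set χ : ℕ → Fin k := fun n => if h : Over P (t * n) then (hC (t * n) h).choose else ⟨0, hk⟩
    with hχ
  have hχ' : ∀ n, Over P n → t * n ∈ C (χ n) := by
    intro n hn
    have h : Over P (t * n) := ht.mul hn
    rw [hχ]
    simp only [dif_pos h]
    exact (hC (t * n) h).choose_spec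
  by_contra hno
  push Not at hno
  have hb : ∀ i, ∃ N : ℕ, ∀ F : Finset ℕ, (∀ n ∈ F, N < n ∧ Over P n ∧ n ∈ C i) →
      ∑ n ∈ F, (1 / (n : ℚ)) ≠ 1 / t := by
    intro i
    have := hno i
    unfold Good at this
    push Not at this
    exact this
  choose b hb' using hb
  obtain ⟨c, S, hS, hsum⟩ := Pool.Agent.H71.UF.mono P δ hδ hP k (univ.sup b) χ
  refine hb' c (S.image (fun n => t * n)) ?_ ?_
  · intro m hm
    obtain ⟨n, hn, rfl⟩ := mem_image.1 hm
    obtain ⟨h1, h3, h2⟩ := hS n hn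
    refine ⟨?_, ht.mul h3, ?_⟩
    · have h3 : b c ≤ univ.sup b := le_sup (mem_univ c)
      have h4 : n ≤ t * n := Nat.le_mul_of_pos_left n ht.1
      omega
    · rw [← h2]; exact hχ' n h3
  · rw [sum_image]
    · have h0 : (t : ℚ) ≠ 0 := by have := ht.1; positivity
      calc ∑ n ∈ S, (1 / ((t * n : ℕ) : ℚ)) = ∑ n ∈ S, (1 / (t : ℚ)) * (1 / (n : ℚ)) := by
            refine sum_congr rfl fun n _ => ?_
            push_cast
            rw [one_div_mul_one_div]
        _ = 1 / t := by rw [← mul_sum, hsum, mul_one]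
    · intro x _ y _ hxy
      exact Nat.eq_of_mul_eq_mul_left ht.1 hxy

theorem result (P : Set ℕ) (δ : ℝ) (hδ : 0 < δ)
    (hP : ∀ᶠ x : ℕ in Filter.atTop, δ * (Nat.primeCounting x : ℝ) ≤
      ({p : ℕ | p.Prime ∧ p ≤ x ∧ p ∈ P}.ncard : ℝ))
    (k : ℕ) (C : Fin k → Set ℕ) (hC : ∀ n : ℕ, Over P n → ∃ i, n ∈ C i) :
    ∃ i : Fin k, ∀ q : ℚ, 0 < q → Over P q.den → ∀ N : ℕ,
      ∃ F : Finset ℕ, (∀ n ∈ F, N < n ∧ Over P n ∧ n ∈ C i) ∧ ∑ n ∈ F, (1 / (n : ℚ)) = q := by
  classical
  have hP' : ∀ᶠ x : ℕ in Filter.atTop, δ * (Pool.Agent.H71.UF.cntP Set.univ x : ℝ) ≤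
      Pool.Agent.H71.UF.cntP P x := by
    filter_upwards [hP] with x hx
    rw [Pool.Agent.H71.UF.cntP_univ_le, ← ncard_eq]
    exact hx
  by_contra hno
  push Not at hno
  -- a bad denominator for each class
  have h1 : ∀ i, ∃ t : ℕ, Over P t ∧ ¬ Good P (C i) (1 / t) := by
    intro i
    obtain ⟨q, hq, hden, N, hN⟩ := hno i
    refine ⟨q.den, hden, fun hg => ?_⟩
    obtain ⟨F, hF, hs⟩ := hg.mul q.num.toNat N
    apply hN F hF
    rw [hs]
    have hnum : ((q.num.toNat : ℕ) : ℤ) = q.num := Int.toNat_of_nonneg (Rat.num_pos.2 hq).le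
    have hn : ((q.num.toNat : ℕ) : ℚ) = (q.num : ℚ) := by
      exact_mod_cast congrArg (Int.cast (R := ℚ)) hnum
    rw [hn, mul_one_div, Rat.num_div_den]
  choose t ht hbad using h1
  -- the product of the bad denominators
  have hprod : ∀ s : Finset (Fin k), Over P (∏ i ∈ s, t i) := by
    intro s
    induction s using Finset.induction_on with
    | empty => exact ⟨one_pos, fun p hp hd => by
        rw [prod_empty, Nat.dvd_one] at hd; exact absurd hd hp.ne_one⟩
    | insert i s hi ih => rw [prod_insert hi]; exact (ht i).mul ih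
  obtain ⟨i, hi⟩ := exists_good P δ hδ hP' k C hC (∏ i, t i) (hprod univ)
  obtain ⟨e, he⟩ := dvd_prod_of_mem t (mem_univ i)
  have h2 := hi.mul e
  apply hbad i
  have hti : (t i : ℚ) ≠ 0 := by have := (ht i).1; positivity
  have he0 : (e : ℚ) ≠ 0 := by
    intro h0
    have h3 : e = 0 := by exact_mod_cast h0
    have h4 := (hprod univ).1
    rw [he, h3, mul_zero] at h4
    exact lt_irrefl _ h4
  have e1 : (e : ℚ) * (1 / ((∏ i, t i : ℕ) : ℚ)) = 1 / (t i : ℚ) := by
    rw [he]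
    push_cast
    field_simp
  rwa [e1] at h2

end Pool.Agent.Results.MP_54bae5_nt.OneClass
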